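import Pool.Agent.H73.PHS.Stmts

/-!
# Row POS of the board phs (MP_e1af46_an): positivity of the degree integral
-/

set_option autoImplicit false

open Set Filter Topology MeasureTheory Metric

namespace Pool.PHS

theorem POS_thm (h1 : DETStmt) : POSStmt := by
  intro n F ψ U Q hU hF hψ hψ0 hQ hQU hsup z₀ hz₀ hpos hnd
  have hjc : ContinuousOn (jac F) U := (h1 n F U hU hF).continuousOn
  have hψF : ContinuousOn (fun z => ψ (F z)) U := hψ.continuous.comp_continuousOn hF.continuousOn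
  have hgc : ContinuousOn (fun z => ψ (F z) * Complex.normSq (jac F z)) U :=
    hψF.mul (Complex.continuous_normSq.comp_continuousOn hjc)
  have hg0 : ∀ z, 0 ≤ ψ (F z) * Complex.normSq (jac F z) := fun z =>
    mul_nonneg (hψ0 _) (Complex.normSq_nonneg _)
  have hgi : IntegrableOn (fun z => ψ (F z) * Complex.normSq (jac F z)) U volume := by
    refine IntegrableOn.of_forall_sdiff_eq_zero
      ((hgc.mono hQU).integrableOn_compact hQ) hU.measurableSet fun z hz => ?_
    have h2 : ψ (F z) = 0 := by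
      by_contra h
      exact hz.2 (hsup z hz.1 h)
    rw [h2, zero_mul]
  rw [setIntegral_pos_iff_support_of_nonneg_ae (Eventually.of_forall hg0) hgi]
  have hO1 : IsOpen (U ∩ (fun z => ψ (F z)) ⁻¹' Ioi 0) := hψF.isOpen_inter_preimage hU isOpen_Ioi
  obtain ⟨z₁, hz₁, hj⟩ := hnd _ hO1 ⟨hz₀, hpos⟩ inter_subset_left
  have hO2 : IsOpen (U ∩ (fun z => ψ (F z) * Complex.normSq (jac F z)) ⁻¹' Ioi 0) :=
    hgc.isOpen_inter_preimage hU isOpen_Ioi
  have hz₂ : z₁ ∈ U ∩ (fun z => ψ (F z) * Complex.normSq (jac F z)) ⁻¹' Ioi 0 :=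
    ⟨hz₁.1, mul_pos hz₁.2 (Complex.normSq_pos.2 hj)⟩
  refine (hO2.measure_pos volume ⟨z₁, hz₂⟩).trans_le (measure_mono ?_)
  rintro z ⟨hz, hz'⟩
  exact ⟨ne_of_gt hz', hz⟩

end Pool.PHS
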